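import Mathlib

/-!
The lamplighter group `ℤ/2 ≀ ℤ`: group structure, countability, Følner sets, and a bounded
function which is the average of two of its distinct right translates.
-/

set_option autoImplicit false

namespace Pool.Agent.Lib.MP_95bae3_an

/-- Shift of a finitely supported lamp configuration. -/
noncomputable def sh (l : ℤ) (p : ℤ →₀ ZMod 2) : ℤ →₀ ZMod 2 :=
  Finsupp.equivMapDomain (Equiv.subRight l) p

@[simp] lemma sh_apply (l : ℤ) (p : ℤ →₀ ZMod 2) (x : ℤ) : sh l p x = p (x + l) := by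
  simp [sh, Finsupp.equivMapDomain_apply]

/-- The lamplighter group. -/
@[ext] structure Lamp where
  p : ℤ →₀ ZMod 2
  k : ℤ

noncomputable instance : Mul Lamp := ⟨fun a b => ⟨sh b.k a.p + b.p, a.k + b.k⟩⟩
instance : One Lamp := ⟨⟨0, 0⟩⟩
noncomputable instance : Inv Lamp := ⟨fun a => ⟨-sh (-a.k) a.p, -a.k⟩⟩

@[simp] lemma mul_p (a b : Lamp) : (a * b).p = sh b.k a.p + b.p := rfl
@[simp] lemma mul_k (a b : Lamp) : (a * b).k = a.k + b.k := rfl
@[simp] lemma one_p : (1 : Lamp).p = 0 := rfl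
@[simp] lemma one_k : (1 : Lamp).k = 0 := rfl
@[simp] lemma inv_p (a : Lamp) : (a⁻¹).p = -sh (-a.k) a.p := rfl
@[simp] lemma inv_k (a : Lamp) : (a⁻¹).k = -a.k := rfl

noncomputable instance : Group Lamp :=
  Group.ofLeftAxioms
    (fun a b c => by
      ext x
      · simp only [mul_p, mul_k, Finsupp.add_apply, sh_apply]
        rw [add_assoc, show x + c.k + b.k = x + (b.k + c.k) by ring]
      · simp [add_assoc])
    (fun a => by
      ext x
      · simp
      · simp)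
    (fun a => by
      ext x
      · simp only [mul_p, inv_p, one_p, Finsupp.add_apply, sh_apply, Finsupp.neg_apply,
          Finsupp.coe_zero, Pi.zero_apply]
        rw [show x + a.k + -a.k = x by ring, neg_add_cancel]
      · simp)

instance : Countable Lamp := by
  have : Function.Injective (fun a : Lamp => (a.p, a.k)) := by
    intro a b h
    simp only [Prod.mk.injEq] at h
    exact Lamp.ext h.1 h.2
  exact this.countable

/-- The box of elements with lamp part in `W` and position in `D`. -/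
def box (W : Set (ℤ →₀ ZMod 2)) (D : Set ℤ) : Set Lamp := {x | x.p ∈ W ∧ x.k ∈ D}

lemma box_eq (W : Set (ℤ →₀ ZMod 2)) (D : Set ℤ) :
    box W D = (fun z : (ℤ →₀ ZMod 2) × ℤ => (⟨z.1, z.2⟩ : Lamp)) '' (W ×ˢ D) := by
  ext x
  constructor
  · rintro ⟨h1, h2⟩
    exact ⟨(x.p, x.k), ⟨h1, h2⟩, rfl⟩
  · rintro ⟨z, ⟨h1, h2⟩, rfl⟩
    exact ⟨h1, h2⟩

lemma box_ncard (W : Set (ℤ →₀ ZMod 2)) (D : Set ℤ) :
    (box W D).ncard = W.ncard * D.ncard := by
  rw [box_eq, Set.ncard_image_of_injective, Set.ncard_prod]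
  intro a b h
  simp only [Lamp.mk.injEq] at h
  exact Prod.ext h.1 h.2

lemma box_finite {W : Set (ℤ →₀ ZMod 2)} {D : Set ℤ} (hW : W.Finite) (hD : D.Finite) :
    (box W D).Finite := by
  rw [box_eq]
  exact (hW.prod hD).image _

lemma ncard_Icc (a b : ℤ) : (Set.Icc a b).ncard = (b + 1 - a).toNat := by
  rw [← Finset.coe_Icc, Set.ncard_coe_finset, Int.card_Icc]

theorem folner (F : Finset Lamp) (ε : ℝ) (hε : 0 < ε) :
    ∃ A : Set Lamp, A.Finite ∧ A.Nonempty ∧
      ∀ g ∈ F, ((symmDiff ((fun x => g * x) '' A) A).ncard : ℝ) < ε * (A.ncard : ℝ) := by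
  classical
  obtain ⟨r, hr⟩ : ∃ r : ℕ, ∀ g ∈ F, |g.k| ≤ r := by
    refine ⟨F.sup (fun g => g.k.natAbs), fun g hg => ?_⟩
    have := Finset.le_sup (f := fun g : Lamp => g.k.natAbs) hg
    rw [Int.abs_eq_natAbs]
    exact_mod_cast this
  obtain ⟨n, hn⟩ : ∃ n : ℕ, (2 * (2 * r + 1) : ℝ) / ε < n := exists_nat_gt _
  set S : Set (ℤ →₀ ZMod 2) :=
    (fun z : Lamp × ℤ => sh z.2 z.1.p) '' ((F : Set Lamp) ×ˢ Set.Icc (-(n : ℤ)) n) with hS
  have hSfin : S.Finite := (F.finite_toSet.prod (Set.finite_Icc _ _)).image _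
  set W : Submodule (ZMod 2) (ℤ →₀ ZMod 2) := Submodule.span (ZMod 2) S with hW
  have hWfin : (W : Set (ℤ →₀ ZMod 2)).Finite := by
    have : Module.Finite (ZMod 2) W := Module.Finite.span_of_finite _ hSfin
    have : Finite W := Module.finite_of_finite (ZMod 2)
    exact Set.toFinite _
  have hWpos : 0 < (W : Set (ℤ →₀ ZMod 2)).ncard :=
    (Set.ncard_pos hWfin).2 ⟨0, W.zero_mem⟩
  have hmem : ∀ g ∈ F, ∀ l : ℤ, -(n : ℤ) ≤ l → l ≤ n → sh l g.p ∈ W := by
    intro g hg l h1 h2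
    exact Submodule.subset_span ⟨(g, l), ⟨hg, h1, h2⟩, rfl⟩
  refine ⟨box W (Set.Icc (-(n : ℤ)) n), box_finite hWfin (Set.finite_Icc _ _),
    ⟨1, W.zero_mem, by simp⟩, fun g hg => ?_⟩
  have hg' := abs_le.1 (hr g hg)
  have hsub : symmDiff ((fun x => g * x) '' box W (Set.Icc (-(n : ℤ)) n))
      (box W (Set.Icc (-(n : ℤ)) n)) ⊆
      box W (Set.Icc (-(n : ℤ) - r) (-(n : ℤ) + r) ∪ Set.Icc ((n : ℤ) - r) (n + r)) := by
    intro x hx
    rcases hx with ⟨⟨y, ⟨hy1, hy2, hy3⟩, rfl⟩, hx⟩ | ⟨⟨hx1, hx2, hx3⟩, hx⟩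
    · have hp : (g * y).p ∈ W := W.add_mem (hmem g hg _ hy2 hy3) hy1
      refine ⟨hp, ?_⟩
      by_contra hcon
      apply hx
      refine ⟨hp, ?_⟩
      simp only [Set.mem_union, Set.mem_Icc, mul_k] at hcon ⊢
      omega
    · refine ⟨hx1, ?_⟩
      by_contra hcon
      apply hx
      simp only [Set.mem_union, Set.mem_Icc] at hcon
      refine ⟨⟨x.p - sh (x.k - g.k) g.p, x.k - g.k⟩, ⟨?_, ?_, ?_⟩, ?_⟩
      · exact W.sub_mem hx1 (hmem g hg _ (by omega) (by omega))
      · show -(n : ℤ) ≤ x.k - g.k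
        omega
      · show x.k - g.k ≤ n
        omega
      · ext t
        · simp
        · simp
  have hfin : (box W (Set.Icc (-(n : ℤ) - r) (-(n : ℤ) + r) ∪
      Set.Icc ((n : ℤ) - r) (n + r))).Finite :=
    box_finite hWfin ((Set.finite_Icc _ _).union (Set.finite_Icc _ _))
  have h1 := Set.ncard_le_ncard hsub hfin
  rw [box_ncard] at h1
  have h2 : (Set.Icc (-(n : ℤ) - r) (-(n : ℤ) + r) ∪ Set.Icc ((n : ℤ) - r) (n + r)).ncard
      ≤ 2 * (2 * r + 1) := by
    refine (Set.ncard_union_le _ _).trans ?_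
    rw [ncard_Icc, ncard_Icc]
    omega
  have h3 : (Set.Icc (-(n : ℤ)) n).ncard = 2 * n + 1 := by
    rw [ncard_Icc]
    omega
  rw [box_ncard, h3]
  have h4 := h1.trans (Nat.mul_le_mul_left _ h2)
  have h5 : ((symmDiff ((fun x => g * x) '' box W (Set.Icc (-(n : ℤ)) n))
      (box W (Set.Icc (-(n : ℤ)) n))).ncard : ℝ) ≤
      ((W : Set (ℤ →₀ ZMod 2)).ncard : ℝ) * (2 * (2 * r + 1)) := by exact_mod_cast h4
  have h6 : (0 : ℝ) < ((W : Set (ℤ →₀ ZMod 2)).ncard : ℝ) := by exact_mod_cast hWpos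
  have h7 : (2 * (2 * r + 1) : ℝ) < ε * (2 * n + 1) := by
    rw [div_lt_iff₀ hε] at hn
    have : (0 : ℝ) ≤ n := Nat.cast_nonneg _
    nlinarith
  refine h5.trans_lt ?_
  push_cast
  nlinarith

/-- Sign of a lamp state. -/
noncomputable def sg (z : ZMod 2) : ℝ := if z = 0 then 1 else -1

lemma sg_add_one (z : ZMod 2) : sg (z + 1) = -sg z := by
  unfold sg
  fin_cases z
  · have h' : ¬ ((0 : ZMod 2) + 1 = 0) := by decide
    show (if (0 : ZMod 2) + 1 = 0 then (1 : ℝ) else -1) = -(if (0 : ZMod 2) = 0 then 1 else -1)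
    rw [if_neg h', if_pos rfl]
  · have h : (1 : ZMod 2) + 1 = 0 := by decide
    have h' : ¬ ((1 : ZMod 2) = 0) := by decide
    show (if (1 : ZMod 2) + 1 = 0 then (1 : ℝ) else -1) = -(if (1 : ZMod 2) = 0 then 1 else -1)
    rw [if_pos h, if_neg h']
    norm_num

lemma abs_sg (z : ZMod 2) : |sg z| = 1 := by
  unfold sg
  split_ifs <;> simp

/-- A bounded harmonic function. -/
noncomputable def harm (x : Lamp) : ℝ := if 0 ≤ x.k then sg (x.p (-x.k)) else 0

/-- First generator. -/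
def genA : Lamp := ⟨0, 1⟩
/-- Second generator. -/
noncomputable def genB : Lamp := ⟨Finsupp.single 0 1, 1⟩

lemma abs_harm_le (x : Lamp) : |harm x| ≤ 1 := by
  unfold harm
  split_ifs
  · rw [abs_sg]
  · simp

lemma harm_avg (x : Lamp) : harm (x * genA) + harm (x * genB) = 2 * harm x := by
  unfold harm
  simp only [mul_k, mul_p, genA, genB, Finsupp.add_apply, sh_apply, add_zero]
  have e : -(x.k + 1) + 1 = -x.k := by ring
  rw [e]
  rcases lt_trichotomy (x.k + 1) 0 with h | h | h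
  · rw [if_neg (by omega), if_neg (by omega), if_neg (by omega)]
    ring
  · rw [if_pos (by omega), if_pos (by omega), if_neg (by omega), h]
    simp only [neg_zero, Finsupp.single_eq_same]
    rw [sg_add_one]
    ring
  · rw [if_pos (by omega), if_pos (by omega), if_pos (by omega),
      Finsupp.single_eq_of_ne (by omega), add_zero]
    ring

lemma harm_ne : harm (⟨0, -1⟩ * genA) ≠ harm (⟨0, -1⟩ * genB) := by
  unfold harm
  simp [genA, genB, sg]
  norm_num

end Pool.Agent.Lib.MP_95bae3_an
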