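import Pool.Agent.Lib.MP_95bae3_an.Lamplighter

/-!
Invariant means from Følner sets; the lamplighter group is finitely generated.
-/

set_option autoImplicit false

namespace Pool.Agent.Lib.MP_95bae3_an

open Filter Topology
open scoped ENNReal

lemma sum_sub_le {G : Type} [DecidableEq G] (A B : Finset G) (f : G → ℝ) (C : ℝ)
    (hC : ∀ x, |f x| ≤ C) :
    |∑ x ∈ A, f x - ∑ x ∈ B, f x| ≤ C * (symmDiff A B).card := by
  have h1 : ∀ S : Finset G, |∑ x ∈ S, f x| ≤ C * S.card := fun S => by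
    refine (Finset.abs_sum_le_sum_abs _ _).trans ?_
    have := Finset.sum_le_card_nsmul S (fun x => |f x|) C fun x _ => hC x
    rw [nsmul_eq_mul] at this
    linarith
  have h2 : (symmDiff A B).card = (A \ B).card + (B \ A).card := by
    rw [symmDiff_def, Finset.sup_eq_union, Finset.card_union_of_disjoint disjoint_sdiff_sdiff]
  rw [← Finset.sum_sdiff_sub_sum_sdiff, h2]
  refine (abs_sub _ _).trans ?_
  push_cast
  linarith [h1 (A \ B), h1 (B \ A)]

theorem mean_of_folner {G : Type} [Group G]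
    (h : ∀ (F : Finset G) (ε : ℝ), 0 < ε → ∃ A : Set G, A.Finite ∧ A.Nonempty ∧
      ∀ g ∈ F, ((symmDiff ((fun x => g * x) '' A) A).ncard : ℝ) < ε * (A.ncard : ℝ)) :
    ∃ m : lp (fun _ : G => ℝ) ∞ →ₗ[ℝ] ℝ, (∀ f, (∀ x, 0 ≤ f x) → 0 ≤ m f) ∧ m 1 = 1 ∧
      ∀ (g : G) (f f' : lp (fun _ : G => ℝ) ∞), (∀ x, f' x = f (g⁻¹ * x)) → m f' = m f := by
  classical
  have h' : ∀ i : Finset G × ℕ, ∃ A : Finset G, A.Nonempty ∧ ∀ g ∈ i.1,
      ((symmDiff (A.image fun x => g * x) A).card : ℝ) < 1 / ((i.2 : ℝ) + 1) * A.card := by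
    intro i
    obtain ⟨A, hA, hne, hg⟩ := h i.1 (1 / ((i.2 : ℝ) + 1)) (by positivity)
    lift A to Finset G using hA
    refine ⟨A, by simpa using hne, fun g hg' => ?_⟩
    have := hg g hg'
    rwa [← Finset.coe_image, ← Finset.coe_symmDiff, Set.ncard_coe_finset,
      Set.ncard_coe_finset] at this
  choose A hne hA using h'
  have hpos : ∀ i, (0 : ℝ) < (A i).card := fun i => by exact_mod_cast (hne i).card_pos
  let U : Ultrafilter (Finset G × ℕ) := Ultrafilter.of atTop
  have hU : (U : Filter (Finset G × ℕ)) ≤ atTop := Ultrafilter.of_le _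
  let av : lp (fun _ : G => ℝ) ∞ → Finset G × ℕ → ℝ :=
    fun f i => (∑ x ∈ A i, f x) / (A i).card
  have hb : ∀ (f : lp (fun _ : G => ℝ) ∞) (x : G), |f x| ≤ ‖f‖ :=
    fun f x => lp.norm_apply_le_norm ENNReal.top_ne_zero f x
  have hlim : ∀ f, ∃ c : ℝ, Tendsto (av f) U (𝓝 c) := by
    intro f
    have hm : ∀ i, av f i ∈ Set.Icc (-‖f‖) ‖f‖ := fun i => by
      have := sum_sub_le (A i) ∅ f ‖f‖ (hb f)
      rw [Finset.sum_empty, sub_zero, ← Finset.bot_eq_empty, symmDiff_bot] at this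
      refine abs_le.1 ?_
      rw [abs_div, abs_of_pos (hpos i), div_le_iff₀ (hpos i)]
      exact this
    obtain ⟨c, -, hc⟩ := isCompact_Icc.ultrafilter_le_nhds (U.map (av f))
      (by rw [le_principal_iff]; exact mem_map.2 (Eventually.of_forall hm))
    exact ⟨c, hc⟩
  choose m hm using hlim
  refine ⟨⟨⟨m, fun f f' => ?_⟩, fun c f => ?_⟩, fun f hf => ?_, ?_, fun g f f' hf => ?_⟩
  · refine tendsto_nhds_unique (hm _) (((hm f).add (hm f')).congr fun i => ?_)
    simp only [av, lp.coeFn_add, Pi.add_apply, Finset.sum_add_distrib, add_div]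
  · refine tendsto_nhds_unique (hm _) (((hm f).const_mul c).congr fun i => ?_)
    simp only [av, lp.coeFn_smul, Pi.smul_apply, smul_eq_mul, ← Finset.mul_sum, mul_div_assoc]
  · exact ge_of_tendsto' (hm f) fun i =>
      div_nonneg (Finset.sum_nonneg fun x _ => hf x) (hpos i).le
  · refine tendsto_nhds_unique (hm _) (tendsto_const_nhds.congr fun i => ?_)
    simp only [av, lp.infty_coeFn_one, Pi.one_apply, Finset.sum_const, nsmul_eq_mul, mul_one]
    exact (div_self (hpos i).ne').symm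
  · have h1 : Tendsto (fun i => av f' i - av f i) U (𝓝 (m f' - m f)) := (hm f').sub (hm f)
    have h2 : Tendsto (fun i : Finset G × ℕ => ‖f‖ * (1 / ((i.2 : ℝ) + 1))) atTop (𝓝 0) := by
      have h3 : Tendsto (fun i : Finset G × ℕ => i.2) atTop atTop := by
        rw [← prod_atTop_atTop_eq]
        exact tendsto_snd
      simpa using (tendsto_one_div_add_atTop_nhds_zero_nat.comp h3).const_mul ‖f‖
    have h4 : Tendsto (fun i => av f' i - av f i) atTop (𝓝 0) := by
      refine squeeze_zero_norm' ?_ h2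
      filter_upwards [eventually_ge_atTop (({g⁻¹} : Finset G), 0)] with i hi
      have hg : g⁻¹ ∈ i.1 := hi.1 (Finset.mem_singleton_self _)
      have e1 : ∑ x ∈ A i, f' x = ∑ x ∈ (A i).image (fun x => g⁻¹ * x), f x := by
        rw [Finset.sum_image fun x _ y _ hxy => mul_left_cancel hxy]
        exact Finset.sum_congr rfl fun x _ => hf x
      have e2 := sum_sub_le ((A i).image fun x => g⁻¹ * x) (A i) f ‖f‖ (hb f)
      have e3 := mul_le_mul_of_nonneg_left (hA i _ hg).le (norm_nonneg f)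
      simp only [av]
      rw [Real.norm_eq_abs, ← sub_div, abs_div, abs_of_pos (hpos i), div_le_iff₀ (hpos i), e1]
      linarith
    have h5 := tendsto_nhds_unique h1 (h4.mono_left hU)
    exact sub_eq_zero.1 h5

theorem mean_fun {G : Type} [Group G]
    (h : ∃ m : lp (fun _ : G => ℝ) ∞ →ₗ[ℝ] ℝ, (∀ f, (∀ x, 0 ≤ f x) → 0 ≤ m f) ∧ m 1 = 1 ∧
      ∀ (g : G) (f f' : lp (fun _ : G => ℝ) ∞), (∀ x, f' x = f (g⁻¹ * x)) → m f' = m f) :
    ∃ m : (G → ℝ) → ℝ,
      (∀ f f' : G → ℝ, (∃ C, ∀ x, |f x| ≤ C) → (∃ C, ∀ x, |f' x| ≤ C) →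
        m (fun x => f x + f' x) = m f + m f') ∧
      (∀ (c : ℝ) (f : G → ℝ), (∃ C, ∀ x, |f x| ≤ C) → m (fun x => c * f x) = c * m f) ∧
      (∀ f : G → ℝ, (∃ C, ∀ x, |f x| ≤ C) → (∀ x, 0 ≤ f x) → 0 ≤ m f) ∧ m (fun _ => 1) = 1 ∧
      ∀ (g : G) (f : G → ℝ), (∃ C, ∀ x, |f x| ≤ C) → m (fun x => f (g⁻¹ * x)) = m f := by
  classical
  obtain ⟨M, h0, h1, h2⟩ := h
  have hb : ∀ f : G → ℝ, (∃ C, ∀ x, |f x| ≤ C) → Memℓp f ∞ := fun f ⟨C, hC⟩ =>
    memℓp_infty ⟨C, by rintro _ ⟨x, rfl⟩; exact hC x⟩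
  let m : (G → ℝ) → ℝ := fun f => if hf : Memℓp f ∞ then M ⟨f, hf⟩ else 0
  have hm : ∀ F : lp (fun _ : G => ℝ) ∞, m F = M F := fun F => dif_pos (lp.memℓp F)
  refine ⟨m, fun f f' hf hf' => ?_, fun c f hf => ?_, fun f hf hp => ?_, ?_, fun g f hf => ?_⟩
  · have e := hm (⟨f, hb f hf⟩ + ⟨f', hb f' hf'⟩)
    rw [map_add, ← hm, ← hm] at e
    exact e
  · have e := hm (c • ⟨f, hb f hf⟩)
    rw [map_smul, ← hm] at e
    exact e
  · have e := h0 ⟨f, hb f hf⟩ hp
    rw [← hm] at e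
    exact e
  · have e := hm 1
    rw [h1] at e
    exact e
  · obtain ⟨C, hC⟩ := hf
    have e := h2 g ⟨f, hb f ⟨C, hC⟩⟩ ⟨fun x => f (g⁻¹ * x), hb _ ⟨C, fun x => hC _⟩⟩ fun _ => rfl
    rw [← hm, ← hm] at e
    exact e

theorem lamp_fg : Group.FG Lamp := by
  classical
  let H : Subgroup Lamp := Subgroup.closure ({genA, genB} : Set Lamp)
  have hA : genA ∈ H := Subgroup.subset_closure (by simp)
  have hB : genB ∈ H := Subgroup.subset_closure (by simp)
  have h1 : ∀ k : ℤ, (⟨0, k⟩ : Lamp) ∈ H := by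
    intro k
    induction k using Int.induction_on with
    | zero => exact H.one_mem
    | succ n ih =>
      have := H.mul_mem ih hA
      convert this using 1
      ext x <;> simp [genA]
    | pred n ih =>
      have := H.mul_mem ih (H.inv_mem hA)
      convert this using 1
      ext x
      · simp [genA]
      · simp [genA, sub_eq_add_neg]
  have h2 : ∀ n : ℤ, (⟨Finsupp.single n 1, 0⟩ : Lamp) ∈ H := by
    intro n
    have := H.mul_mem (H.mul_mem (h1 (n - 1)) hB) (h1 (-n))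
    convert this using 1
    ext x
    · simp only [genB, mul_p, Finsupp.add_apply, sh_apply, Finsupp.coe_zero, Pi.zero_apply,
        zero_add, add_zero, Finsupp.single_apply]
      congr 1
      apply propext
      omega
    · simp [genB]
  have h3 : ∀ p : ℤ →₀ ZMod 2, (⟨p, 0⟩ : Lamp) ∈ H := by
    intro p
    induction p using Finsupp.induction_linear with
    | zero => exact h1 0
    | add p q hp hq =>
      have := H.mul_mem hp hq
      convert this using 1
      ext x <;> simp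
    | single n z =>
      fin_cases z
      · have : Finsupp.single n (0 : ZMod 2) = 0 := Finsupp.single_zero n
        exact this ▸ h1 0
      · exact h2 n
  refine ⟨⟨{genA, genB}, ?_⟩⟩
  rw [Finset.coe_pair, eq_top_iff]
  intro g _
  have := H.mul_mem (h1 g.k) (h3 g.p)
  convert this using 1
  ext x <;> simp

end Pool.Agent.Lib.MP_95bae3_an
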