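import Mathlib

/-!
For a countable group `G` and a bounded function `f` on `G`, the closed span of the right
translates of `f` is a separable Banach space on which `G` acts by linear isometries.  If `f` is the
average of two distinct translates, no invariant norm on it is strictly convex.
-/

set_option autoImplicit false

namespace Pool.Agent.Lib.MP_95bae3_an

open BoundedContinuousFunction

variable {G : Type} [Group G] [TopologicalSpace G] [DiscreteTopology G]

/-- Right translation of a bounded function. -/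
noncomputable def tr (h : G) (u : G →ᵇ ℝ) : G →ᵇ ℝ :=
  u.compContinuous ⟨fun g => g * h, continuous_of_discreteTopology⟩

@[simp] lemma tr_apply (h : G) (u : G →ᵇ ℝ) (g : G) : tr h u g = u (g * h) := rfl

lemma tr_mul (a b : G) (u : G →ᵇ ℝ) : tr (a * b) u = tr a (tr b u) := by
  ext g
  simp [mul_assoc]

lemma tr_one (u : G →ᵇ ℝ) : tr (1 : G) u = u := by
  ext g
  simp

lemma norm_tr_le (h : G) (u : G →ᵇ ℝ) : ‖tr h u‖ ≤ ‖u‖ :=
  BoundedContinuousFunction.norm_compContinuous_le _ _

lemma norm_tr (h : G) (u : G →ᵇ ℝ) : ‖tr h u‖ = ‖u‖ := by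
  refine le_antisymm (norm_tr_le h u) ?_
  have := norm_tr_le h⁻¹ (tr h u)
  rwa [← tr_mul, inv_mul_cancel, tr_one] at this

/-- Right translation as a continuous linear map. -/
noncomputable def trL (h : G) : (G →ᵇ ℝ) →L[ℝ] (G →ᵇ ℝ) :=
  LinearMap.mkContinuous
    { toFun := tr h
      map_add' := fun u v => by ext g; simp
      map_smul' := fun c u => by ext g; simp } 1 (fun u => by simp [norm_tr])

@[simp] lemma trL_apply (h : G) (u : G →ᵇ ℝ) : trL h u = tr h u := rfl

/-- Closed span of the orbit of `f`. -/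
noncomputable def orb (f : G →ᵇ ℝ) : Submodule ℝ (G →ᵇ ℝ) :=
  (Submodule.span ℝ (Set.range fun h : G => tr h f)).topologicalClosure

lemma tr_mem_orb (f : G →ᵇ ℝ) (h : G) : tr h f ∈ orb f :=
  Submodule.le_topologicalClosure _ (Submodule.subset_span ⟨h, rfl⟩)

lemma self_mem_orb (f : G →ᵇ ℝ) : f ∈ orb f := by
  have := tr_mem_orb f 1
  rwa [tr_one] at this

lemma tr_orb (f : G →ᵇ ℝ) (h : G) {u : G →ᵇ ℝ} (hu : u ∈ orb f) : tr h u ∈ orb f := by
  have hle : orb f ≤ (orb f).comap (trL h : (G →ᵇ ℝ) →ₗ[ℝ] (G →ᵇ ℝ)) := by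
    apply Submodule.topologicalClosure_minimal
    · rw [Submodule.span_le]
      rintro _ ⟨k, rfl⟩
      show tr h (tr k f) ∈ orb f
      rw [← tr_mul]
      exact tr_mem_orb f _
    · exact (Submodule.isClosed_topologicalClosure _).preimage (trL h).continuous
  exact hle hu

/-- The action of one group element on the orbit space. -/
noncomputable def act (f : G →ᵇ ℝ) (h : G) : orb f ≃ₗᵢ[ℝ] orb f where
  toFun u := ⟨tr h u.1, tr_orb f h u.2⟩
  invFun u := ⟨tr h⁻¹ u.1, tr_orb f h⁻¹ u.2⟩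
  map_add' u v := by ext g; simp
  map_smul' c u := by ext g; simp
  left_inv u := by ext g; simp
  right_inv u := by ext g; simp
  norm_map' u := norm_tr h u.1

@[simp] lemma act_val (f : G →ᵇ ℝ) (h : G) (u : orb f) : (act f h u).1 = tr h u.1 := rfl

/-- The action as a group homomorphism. -/
noncomputable def rho (f : G →ᵇ ℝ) : G →* (orb f ≃ₗᵢ[ℝ] orb f) where
  toFun := act f
  map_one' := by
    ext u g
    simp
  map_mul' a b := by
    ext u g
    simp [mul_assoc]

instance (f : G →ᵇ ℝ) : CompleteSpace (orb f) :=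
  (Submodule.isClosed_topologicalClosure _).completeSpace_coe

instance [Countable G] (f : G →ᵇ ℝ) : TopologicalSpace.SeparableSpace (orb f) := by
  have h1 : TopologicalSpace.IsSeparable (Set.range fun h : G => tr h f) :=
    (Set.countable_range _).isSeparable
  have h2 : TopologicalSpace.IsSeparable ((orb f : Submodule ℝ (G →ᵇ ℝ)) : Set (G →ᵇ ℝ)) :=
    (h1.span (R := ℝ)).closure
  exact h2.separableSpace

theorem no_strict (f : G →ᵇ ℝ) (a b : G) (havg : ∀ g, f (g * a) + f (g * b) = 2 * f g)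
    (hne : ∃ g, f (g * a) ≠ f (g * b)) (N : orb f → ℝ)
    (hsmul : ∀ (c : ℝ) (x : orb f), N (c • x) = |c| * N x)
    (hlow : ∃ a : ℝ, 0 < a ∧ ∀ x : orb f, a * ‖x‖ ≤ N x)
    (hinv : ∀ (g : G) (x : orb f), N (rho f g x) = N x) :
    ¬ ∀ x y : orb f, N x = 1 → N y = 1 → x ≠ y → N ((1 / 2 : ℝ) • (x + y)) < 1 := by
  intro hs
  obtain ⟨g, hg⟩ := hne
  obtain ⟨c, hc, hcN⟩ := hlow
  set m : orb f := ⟨f, self_mem_orb f⟩ with hm
  have hm0 : m ≠ 0 := by
    intro h0
    apply hg
    have : f = 0 := congrArg Subtype.val h0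
    simp [this]
  have hmpos : 0 < ‖m‖ := by
    have h1 : f ≠ 0 := fun h => hm0 (Subtype.ext h)
    exact (norm_pos_iff (a := f)).2 h1
  have hNm : 0 < N m := lt_of_lt_of_le (mul_pos hc hmpos) (hcN m)
  have hone : ∀ k : G, N ((N m)⁻¹ • rho f k m) = 1 := by
    intro k
    rw [hsmul, hinv, abs_of_pos (inv_pos.2 hNm), inv_mul_cancel₀ hNm.ne']
  have hxy : (N m)⁻¹ • rho f a m ≠ (N m)⁻¹ • rho f b m := by
    intro h
    have h1 := smul_right_injective _ (inv_pos.2 hNm).ne' h
    have h2 : tr a f = tr b f := congrArg Subtype.val h1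
    apply hg
    have := congrArg (fun u : G →ᵇ ℝ => u g) h2
    simpa using this
  have hmid : (1 / 2 : ℝ) • ((N m)⁻¹ • rho f a m + (N m)⁻¹ • rho f b m)
      = (N m)⁻¹ • rho f 1 m := by
    apply Subtype.ext
    ext x
    show (1 / 2 : ℝ) * ((N m)⁻¹ * f (x * a) + (N m)⁻¹ * f (x * b)) = (N m)⁻¹ * f (x * 1)
    rw [← mul_add, havg, mul_one]
    ring
  have := hs _ _ (hone a) (hone b) hxy
  rw [hmid, hone] at this
  exact lt_irrefl _ this

end Pool.Agent.Lib.MP_95bae3_an
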